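import Pool.Agent.R897.KG.Data

/-!
# The Kneser graph `KG(8,3)` has no orientation making all shortest odd cycles alternating
-/

namespace Pool.Agent.Results.MP_573991_co.KneserEightThree

/-- The Kneser graph `KG(n,k)`: the vertices are the `k`-element subsets of an `n`-element set,
two of them are adjacent iff they are disjoint (and distinct, which is automatic for `k ≥ 1`). -/
def kneser (n k : ℕ) : SimpleGraph {s : Finset (Fin n) // s.card = k} where
  Adj s t := s ≠ t ∧ Disjoint s.1 t.1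
  symm := ⟨fun _ _ h => ⟨h.1.symm, h.2.symm⟩⟩
  loopless := ⟨fun _ h => h.1 rfl⟩

/-- `D` is an orientation of the graph `G`: every edge gets exactly one of its two directions. -/
structure IsOrientation {V : Type*} (G : SimpleGraph V) (D : V → V → Prop) : Prop where
  adj_iff : ∀ u v, G.Adj u v ↔ (D u v ∨ D v u)
  asymm : ∀ u v, D u v → ¬ D v u

/-- `c` lists the vertices of a cycle of length `n ≥ 3` of `G` in cyclic order. -/
def IsCycle {V : Type*} (G : SimpleGraph V) (n : ℕ) (c : ZMod n → V) : Prop :=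
  3 ≤ n ∧ Function.Injective c ∧ ∀ i, G.Adj (c i) (c (i + 1))

/-- `c` is a shortest odd cycle of `G`. -/
def IsShortestOddCycle {V : Type*} (G : SimpleGraph V) (n : ℕ) (c : ZMod n → V) : Prop :=
  IsCycle G n c ∧ Odd n ∧ ∀ (m : ℕ) (c' : ZMod m → V), IsCycle G m c' → Odd m → n ≤ m

/-- The vertex `c i` has positive in-degree and positive out-degree in the oriented cycle `c`. -/
def Mixed {V : Type*} (D : V → V → Prop) {n : ℕ} (c : ZMod n → V) (i : ZMod n) : Prop :=
  (D (c (i - 1)) (c i) ∧ D (c i) (c (i + 1))) ∨ (D (c (i + 1)) (c i) ∧ D (c i) (c (i - 1)))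

/-- The oriented (odd) cycle `c` is alternating: exactly one of its vertices has both positive
in-degree and positive out-degree in `c`. -/
def Alternating {V : Type*} (D : V → V → Prop) {n : ℕ} (c : ZMod n → V) : Prop :=
  ∃! i, Mixed D c i

open Pool.Agent.R897.KG

/-- the subset with bit mask `m` -/
def F (m : ℕ) : Finset (Fin 8) := Finset.univ.filter fun x => m.testBit x.val = true

lemma F_card : ∀ m : Fin 256, pc m.val = 3 → (F m.val).card = 3 := by decide +kernel

lemma vok_iff {m : ℕ} (h : vok m = true) : m < 256 ∧ (F m).card = 3 := by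
  rw [vok, Bool.and_eq_true, Nat.blt_eq] at h
  exact ⟨h.1, F_card ⟨m, h.1⟩ (Nat.eq_of_beq_eq_true h.2)⟩

/-- the vertex with bit mask `m` -/
noncomputable def vert (m : ℕ) : {s : Finset (Fin 8) // s.card = 3} :=
  if h : (F m).card = 3 then ⟨F m, h⟩ else ⟨F 7, F_card 7 (by decide +kernel)⟩

lemma vert_val {m : ℕ} (h : vok m = true) : (vert m).1 = F m := by
  rw [vert, dif_pos (vok_iff h).2]

lemma F_inj {a b : ℕ} (ha : a < 256) (hb : b < 256) (h : F a = F b) : a = b := by
  apply Nat.eq_of_testBit_eq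
  intro i
  by_cases hi : i < 8
  · have := Finset.ext_iff.1 h ⟨i, hi⟩
    simp only [F, Finset.mem_filter, Finset.mem_univ, true_and] at this
    cases h1 : a.testBit i <;> cases h2 : b.testBit i <;> simp_all
  · have h8 : (2 : ℕ) ^ 8 ≤ 2 ^ i := Nat.pow_le_pow_right (by norm_num) (by omega)
    rw [Nat.testBit_lt_two_pow (by omega), Nat.testBit_lt_two_pow (by omega)]

lemma vert_ne {a b : ℕ} (ha : vok a = true) (hb : vok b = true) (h : a ≠ b) :
    vert a ≠ vert b := by
  intro h'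
  apply h
  apply F_inj (vok_iff ha).1 (vok_iff hb).1
  rw [← vert_val ha, ← vert_val hb, h']

lemma vert_adj {a b : ℕ} (ha : vok a = true) (hb : vok b = true) (h : dis a b = true) :
    (kneser 8 3).Adj (vert a) (vert b) := by
  have h0 : a &&& b = 0 := Nat.eq_of_beq_eq_true h
  have hd : Disjoint (F a) (F b) := by
    rw [Finset.disjoint_left]
    intro x hx hy
    simp only [F, Finset.mem_filter, Finset.mem_univ, true_and] at hx hy
    have : (a &&& b).testBit x.val = true := by rw [Nat.testBit_and, hx, hy]; rfl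
    rw [h0] at this
    simp at this
  refine ⟨?_, by rw [vert_val ha, vert_val hb]; exact hd⟩
  intro h'
  have h1 : F a = F b := by rw [← vert_val ha, ← vert_val hb, h']
  rw [h1, disjoint_self] at hd
  have := (vok_iff hb).2
  rw [hd] at this
  simp at this

/-- There are no triangles in `KG(8,3)`. -/
lemma five_le (m : ℕ) (c : ZMod m → {s : Finset (Fin 8) // s.card = 3})
    (hc : IsCycle (kneser 8 3) m c) (hm : Odd m) : 5 ≤ m := by
  by_contra hlt
  obtain ⟨h3, -, hadj⟩ := hc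
  have hm3 : m = 3 := by obtain ⟨k, hk⟩ := hm; omega
  subst hm3
  have h01 := (hadj 0).2
  have h12 := (hadj 1).2
  have h20 := (hadj 2).2
  have e1 : (0 : ZMod 3) + 1 = 1 := by decide
  have e2 : (1 : ZMod 3) + 1 = 2 := by decide
  have e3 : (2 : ZMod 3) + 1 = 0 := by decide
  rw [e1] at h01
  rw [e2] at h12
  rw [e3] at h20
  have hu : ((c 0).1 ∪ (c 1).1 ∪ (c 2).1).card = 9 := by
    rw [Finset.card_union_of_disjoint (Finset.disjoint_union_left.2 ⟨h20.symm, h12⟩),
      Finset.card_union_of_disjoint h01, (c 0).2, (c 1).2, (c 2).2]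
  have := Finset.card_le_univ ((c 0).1 ∪ (c 1).1 ∪ (c 2).1)
  rw [hu, Fintype.card_fin] at this
  omega

/-- the 5-cycle with given bit masks -/
noncomputable def cyc (a b c d e : ℕ) : ZMod 5 → {s : Finset (Fin 8) // s.card = 3} :=
  ![vert a, vert b, vert c, vert d, vert e]

lemma cyc_isShortest {a b c d e : ℕ} (h : cyc5 a b c d e = true) :
    IsShortestOddCycle (kneser 8 3) 5 (cyc a b c d e) := by
  simp only [cyc5, Bool.and_eq_true, Bool.not_eq_true'] at h
  obtain ⟨⟨⟨⟨⟨⟨⟨⟨⟨⟨⟨⟨⟨⟨ha, hb⟩, hc⟩, hd⟩, he⟩, hab⟩, hbc⟩, hcd⟩, hde⟩, hea⟩, hac⟩, hbd⟩, hce⟩,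
    hda⟩, heb⟩ := h
  have ne : ∀ {x y : ℕ}, Nat.beq x y = false → x ≠ y := fun h => Nat.ne_of_beq_eq_false h
  have Aab := vert_adj ha hb hab
  have Abc := vert_adj hb hc hbc
  have Acd := vert_adj hc hd hcd
  have Ade := vert_adj hd he hde
  have Aea := vert_adj he ha hea
  have Nac := vert_ne ha hc (ne hac)
  have Nbd := vert_ne hb hd (ne hbd)
  have Nce := vert_ne hc he (ne hce)
  have Nda := vert_ne hd ha (ne hda)
  have Neb := vert_ne he hb (ne heb)
  refine ⟨⟨by norm_num, ?_, ?_⟩, by decide, five_le⟩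
  · intro i j hij
    change Fin 5 at i j
    fin_cases i <;> fin_cases j <;> first
      | rfl
      | (exfalso; exact Aab.1 hij)
      | (exfalso; exact Aab.1.symm hij)
      | (exfalso; exact Abc.1 hij)
      | (exfalso; exact Abc.1.symm hij)
      | (exfalso; exact Acd.1 hij)
      | (exfalso; exact Acd.1.symm hij)
      | (exfalso; exact Ade.1 hij)
      | (exfalso; exact Ade.1.symm hij)
      | (exfalso; exact Aea.1 hij)
      | (exfalso; exact Aea.1.symm hij)
      | (exfalso; exact Nac hij)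
      | (exfalso; exact Nac.symm hij)
      | (exfalso; exact Nbd hij)
      | (exfalso; exact Nbd.symm hij)
      | (exfalso; exact Nce hij)
      | (exfalso; exact Nce.symm hij)
      | (exfalso; exact Nda hij)
      | (exfalso; exact Nda.symm hij)
      | (exfalso; exact Neb hij)
      | (exfalso; exact Neb.symm hij)
  · intro i
    change Fin 5 at i
    fin_cases i
    · exact Aab
    · exact Abc
    · exact Acd
    · exact Ade
    · exact Aea

section

variable {D : {s : Finset (Fin 8) // s.card = 3} → {s : Finset (Fin 8) // s.card = 3} → Prop}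

/-- the literal `l` is true -/
def P (D : {s : Finset (Fin 8) // s.card = 3} → {s : Finset (Fin 8) // s.card = 3} → Prop)
    (l : ℕ) : Prop := l < 65536 ∧ D (vert (l / 256)) (vert (l % 256))

lemma rev_div {l : ℕ} (h : l < 65536) : rev l / 256 = l % 256 := by
  change (256 * (l % 256) + l / 256) / 256 = l % 256
  omega

lemma rev_mod {l : ℕ} (h : l < 65536) : rev l % 256 = l / 256 := by
  change (256 * (l % 256) + l / 256) % 256 = l / 256
  omega

lemma rev_lt {l : ℕ} (h : l < 65536) : rev l < 65536 := by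
  change 256 * (l % 256) + l / 256 < 65536
  omega

lemma P_rev (hD : IsOrientation (kneser 8 3) D) (l : ℕ) (h : P D l) : ¬ P D (rev l) := by
  rintro ⟨-, h2⟩
  rw [rev_div h.1, rev_mod h.1] at h2
  exact hD.asymm _ _ h.2 h2

lemma lt_of_vok {l : ℕ} (h : vok (Nat.div l 256) = true) : l < 65536 := by
  have h1 : l / 256 < 256 := (vok_iff h).1
  omega

lemma P_total (hD : IsOrientation (kneser 8 3) D) (l : ℕ) (h : edge l = true) (hn : ¬ P D l) :
    P D (rev l) := by
  simp only [edge, Bool.and_eq_true] at h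
  have hl := lt_of_vok h.1.1
  have hadj := vert_adj h.1.1 h.1.2 h.2
  rcases (hD.adj_iff _ _).1 hadj with h1 | h1
  · exact absurd ⟨hl, h1⟩ hn
  · refine ⟨rev_lt hl, ?_⟩
    rw [rev_div hl, rev_mod hl]
    exact h1

lemma no_two (hA : ∀ (m : ℕ) (c : ZMod m → {s : Finset (Fin 8) // s.card = 3}),
    IsShortestOddCycle (kneser 8 3) m c → Alternating D c) {a b c d e : ℕ}
    (h : cyc5 a b c d e = true) (i j : ZMod 5) (hij : i ≠ j) (hi : Mixed D (cyc a b c d e) i)
    (hj : Mixed D (cyc a b c d e) j) : False :=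
  hij ((hA 5 _ (cyc_isShortest h)).unique hi hj)

/-- one of the two directions of an edge -/
lemma dir (hD : IsOrientation (kneser 8 3) D) {x y l : ℕ} (hx : vok x = true) (hy : vok y = true)
    (h : dis x y = true) (hdiv : l / 256 = x) (hmod : l % 256 = y) (hn : ¬ P D l) :
    D (vert y) (vert x) := by
  have hl : l < 65536 := by have := (vok_iff hx).1; omega
  rcases (hD.adj_iff _ _).1 (vert_adj hx hy h) with h1 | h1
  · exact absurd ⟨hl, by rw [hdiv, hmod]; exact h1⟩ hn
  · exact h1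

lemma dis_symm {x y : ℕ} (h : dis x y = true) : dis y x = true := by
  have h0 : x &&& y = 0 := Nat.eq_of_beq_eq_true h
  have : y &&& x = 0 := by rw [Nat.land_comm]; exact h0
  change Nat.beq (y &&& x) 0 = true
  rw [this]; rfl

lemma ax_valid (hD : IsOrientation (kneser 8 3) D)
    (hA : ∀ (m : ℕ) (c : ZMod m → {s : Finset (Fin 8) // s.card = 3}),
      IsShortestOddCycle (kneser 8 3) m c → Alternating D c) :
    ∀ (c : List ℕ) (w : ℕ), ax c w = true → Valid (P D) c := by
  intro cl w h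
  match cl, w, h with
  | [l1, l2, l3], w, h =>
    simp only [ax, Bool.and_eq_true] at h
    obtain ⟨⟨e1, e2⟩, h5⟩ := h
    have e1 : l1 / 256 = l2 % 256 := Nat.eq_of_beq_eq_true e1
    have e2 : l2 / 256 = l3 % 256 := Nat.eq_of_beq_eq_true e2
    by_contra hcon
    have n1 : ¬ P D l1 := fun hp => hcon ⟨l1, by simp, hp⟩
    have n2 : ¬ P D l2 := fun hp => hcon ⟨l2, by simp, hp⟩
    have n3 : ¬ P D l3 := fun hp => hcon ⟨l3, by simp, hp⟩
    have h5' := h5
    simp only [cyc5, Bool.and_eq_true, Bool.not_eq_true'] at h5'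
    obtain ⟨⟨⟨⟨⟨⟨⟨⟨⟨⟨⟨⟨⟨⟨ha, hb⟩, hc⟩, hd⟩, he⟩, hab⟩, hbc⟩, hcd⟩, hde⟩, hea⟩, hac⟩, hbd⟩, hce⟩,
      hda⟩, heb⟩ := h5'
    have d1 := dir hD hb ha (dis_symm hab) rfl rfl n1
    have d2 := dir hD hc hb (dis_symm hbc) rfl e1.symm n2
    have d3 := dir hD hd hc (dis_symm hcd) rfl e2.symm n3
    exact no_two hA h5 1 2 (by decide) (Or.inl ⟨d1, d2⟩) (Or.inl ⟨d2, d3⟩)
  | [l1, l2, l3, l4], 0, h =>
    simp only [ax, Bool.and_eq_true] at h
    obtain ⟨⟨⟨e1, e2⟩, e3⟩, h5⟩ := h
    have e1 : l1 / 256 = l2 % 256 := Nat.eq_of_beq_eq_true e1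
    have e2 : l2 / 256 = l3 / 256 := Nat.eq_of_beq_eq_true e2
    have e3 : l3 % 256 = l4 / 256 := Nat.eq_of_beq_eq_true e3
    by_contra hcon
    have n1 : ¬ P D l1 := fun hp => hcon ⟨l1, by simp, hp⟩
    have n2 : ¬ P D l2 := fun hp => hcon ⟨l2, by simp, hp⟩
    have n3 : ¬ P D l3 := fun hp => hcon ⟨l3, by simp, hp⟩
    have n4 : ¬ P D l4 := fun hp => hcon ⟨l4, by simp, hp⟩
    have h5' := h5
    simp only [cyc5, Bool.and_eq_true, Bool.not_eq_true'] at h5'
    obtain ⟨⟨⟨⟨⟨⟨⟨⟨⟨⟨⟨⟨⟨⟨ha, hb⟩, hc⟩, hd⟩, he⟩, hab⟩, hbc⟩, hcd⟩, hde⟩, hea⟩, hac⟩, hbd⟩, hce⟩,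
      hda⟩, heb⟩ := h5'
    have d1 := dir hD hb ha (dis_symm hab) rfl rfl n1
    have d2 := dir hD hc hb (dis_symm hbc) rfl e1.symm n2
    have d3 := dir hD hc hd hcd e2.symm rfl n3
    have d4 := dir hD hd he hde e3.symm rfl n4
    exact no_two hA h5 1 3 (by decide) (Or.inl ⟨d1, d2⟩) (Or.inr ⟨d4, d3⟩)
  | [l1, l2, l3, l4], w + 1, h =>
    simp only [ax, Bool.and_eq_true] at h
    obtain ⟨⟨⟨e1, e2⟩, e3⟩, h5⟩ := h
    have e1 : l1 % 256 = l2 / 256 := Nat.eq_of_beq_eq_true e1
    have e2 : l2 % 256 = l3 % 256 := Nat.eq_of_beq_eq_true e2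
    have e3 : l3 / 256 = l4 % 256 := Nat.eq_of_beq_eq_true e3
    by_contra hcon
    have n1 : ¬ P D l1 := fun hp => hcon ⟨l1, by simp, hp⟩
    have n2 : ¬ P D l2 := fun hp => hcon ⟨l2, by simp, hp⟩
    have n3 : ¬ P D l3 := fun hp => hcon ⟨l3, by simp, hp⟩
    have n4 : ¬ P D l4 := fun hp => hcon ⟨l4, by simp, hp⟩
    have h5' := h5
    simp only [cyc5, Bool.and_eq_true, Bool.not_eq_true'] at h5'
    obtain ⟨⟨⟨⟨⟨⟨⟨⟨⟨⟨⟨⟨⟨⟨ha, hb⟩, hc⟩, hd⟩, he⟩, hab⟩, hbc⟩, hcd⟩, hde⟩, hea⟩, hac⟩, hbd⟩, hce⟩,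
      hda⟩, heb⟩ := h5'
    have d1 := dir hD ha hb hab rfl e1 n1
    have d2 := dir hD hb hc hbc rfl rfl n2
    have d3 := dir hD hd hc (dis_symm hcd) rfl e2.symm n3
    have d4 := dir hD he hd (dis_symm hde) rfl e3.symm n4
    exact no_two hA h5 1 3 (by decide) (Or.inr ⟨d2, d1⟩) (Or.inl ⟨d3, d4⟩)
  | [], _, h => simp [ax] at h
  | [_], _, h => simp [ax] at h
  | [_, _], _, h => simp [ax] at h
  | _ :: _ :: _ :: _ :: _ :: _, _, h => simp [ax] at h

end

/-- **Main theorem.** Every orientation of the Kneser graph `KG(8,3)` has a shortest odd cycle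
(a 5-cycle) that is not alternating. -/
theorem result :
    ¬ ∃ D : {s : Finset (Fin 8) // s.card = 3} → {s : Finset (Fin 8) // s.card = 3} → Prop,
      IsOrientation (kneser 8 3) D ∧
      ∀ (n : ℕ) (c : ZMod n → {s : Finset (Fin 8) // s.card = 3}),
        IsShortestOddCycle (kneser 8 3) n c → Alternating D c := by
  rintro ⟨D, hD, hA⟩
  have h1 : ∀ i < 1213, Valid (P D) (t0.get i).1 := by
    intro i hi
    exact ax_valid hD hA _ _ (chkAx_sound ax t0 1213 0 ax_ok i (Nat.zero_le _) (by omega))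
  have h2 := chk_sound (P D) (P_rev hD) edge (P_total hD) t0 steps 1213 steps_ok h1 1337
    (by rw [steps_length]; norm_num)
  rw [last_empty] at h2
  obtain ⟨l, hl, -⟩ := h2
  simp at hl

end Pool.Agent.Results.MP_573991_co.KneserEightThree
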